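import Pool.Agent.Run7.h992.OM.K1

/-!
# Project OM, piece K3a: the automorphic kernel
-/

set_option autoImplicit false

open UpperHalfPlane MeasureTheory Complex Filter Topology
open scoped MatrixGroups

namespace Run7.h355.OM

open Run7.h992.OM

/-! ### actions -/

theorem J_J (z : ℍ) : UpperHalfPlane.J • (UpperHalfPlane.J • z) = z := by
  rw [← mul_smul, ← pow_two, UpperHalfPlane.J_sq, one_smul]

theorem k_J (s : ℕ) (z w : ℍ) : k s z (UpperHalfPlane.J • w) = k s (UpperHalfPlane.J • z) w := by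
  conv_rhs => rw [← J_J w]
  rw [k_smul]

theorem sl_smul (g : SL(2, ℤ)) (z : ℍ) :
    g • z = (Matrix.SpecialLinearGroup.mapGL ℝ g : GL (Fin 2) ℝ) • z :=
  MulAction.compHom_smul_def _ g z

theorem k_sl (s : ℕ) (g : SL(2, ℤ)) (z w : ℍ) : k s (g • z) (g • w) = k s z w := by
  rw [sl_smul, sl_smul, k_smul]

/-- conjugation by `J` -/
def tw (g : SL(2, ℤ)) : SL(2, ℤ) :=
  ⟨!![g 0 0, -g 0 1; -g 1 0, g 1 1], by
    have := g.det_coe
    rw [Matrix.det_fin_two] at this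
    rw [Matrix.det_fin_two_of]; linarith⟩

theorem tw_00 (g : SL(2, ℤ)) : tw g 0 0 = g 0 0 := rfl
theorem tw_01 (g : SL(2, ℤ)) : tw g 0 1 = -g 0 1 := rfl
theorem tw_10 (g : SL(2, ℤ)) : tw g 1 0 = -g 1 0 := rfl
theorem tw_11 (g : SL(2, ℤ)) : tw g 1 1 = g 1 1 := rfl

theorem tw_tw (g : SL(2, ℤ)) : tw (tw g) = g := by
  ext i j
  fin_cases i <;> fin_cases j <;> simp [tw]

/-- `tw` as a bijection -/
def twE : SL(2, ℤ) ≃ SL(2, ℤ) := ⟨tw, tw, tw_tw, tw_tw⟩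

theorem J_sl (g : SL(2, ℤ)) (z : ℍ) :
    UpperHalfPlane.J • (g • z) = tw g • (UpperHalfPlane.J • z) := by
  rw [sl_smul, sl_smul, ← mul_smul, ← mul_smul]
  congr 1
  ext i j
  fin_cases i <;> fin_cases j <;>
    simp [tw_00, tw_01, tw_10, tw_11, Matrix.mul_apply, Fin.sum_univ_two]

/-! ### the value of the kernel -/

/-- `4 / k 1 z (g w)`, minus two -/
noncomputable def Nf (g : SL(2, ℤ)) (z w : ℍ) : ℝ :=
  z.im * w.im * (g 1 0 : ℝ) ^ 2 + z.im / w.im * ((g 1 0 : ℝ) * w.re + g 1 1) ^ 2 +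
    w.im / z.im * ((g 0 0 : ℝ) - z.re * g 1 0) ^ 2 +
    1 / (z.im * w.im) * ((g 0 1 : ℝ) + g 0 0 * w.re - z.re * ((g 1 0 : ℝ) * w.re + g 1 1)) ^ 2

theorem det_real (g : SL(2, ℤ)) : (g 0 0 : ℝ) * g 1 1 - g 0 1 * g 1 0 = 1 := by
  have := g.det_coe
  rw [Matrix.det_fin_two] at this
  exact_mod_cast this

theorem k_eq (s : ℕ) (g : SL(2, ℤ)) (z w : ℍ) : k s z (g • w) = (4 / (2 + Nf g z w)) ^ s := by
  rw [k_formula]
  congr 1
  have hz := z.im_pos
  have hw := w.im_pos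
  have hdet := det_real g
  set a : ℝ := ((g 0 0 : ℤ) : ℝ) with ha
  set b : ℝ := ((g 0 1 : ℤ) : ℝ) with hb
  set c : ℝ := ((g 1 0 : ℤ) : ℝ) with hc
  set d : ℝ := ((g 1 1 : ℤ) : ℝ) with hd
  have hco : ((g • w : ℍ) : ℂ) = ((a : ℂ) * w + b) / ((c : ℂ) * w + d) := by
    rw [coe_specialLinearGroup_apply]
    simp [ha, hb, hc, hd]
  have hD : ((c : ℂ) * w + d) ≠ 0 := by
    intro h
    have h1 := congrArg Complex.im h
    simp at h1
    rcases h1 with h1 | h1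
    · rw [h1] at h
      have h2 := congrArg Complex.re h
      simp at h2
      rw [h1, h2] at hdet
      norm_num at hdet
    · exact hw.ne' h1
  have hnD : 0 < Complex.normSq ((c : ℂ) * w + d) := Complex.normSq_pos.mpr hD
  have him : (g • w : ℍ).im = w.im / Complex.normSq ((c : ℂ) * w + d) := by
    have : (g • w : ℍ).im = ((g • w : ℍ) : ℂ).im := rfl
    rw [this, hco, Complex.div_im, ← sub_div]
    congr 1
    have e1 : w.im = (w : ℂ).im := rfl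
    simp only [Complex.add_im, Complex.mul_im, Complex.ofReal_re, Complex.ofReal_im, Complex.add_re,
      Complex.mul_re]
    rw [e1]
    linear_combination (w : ℂ).im * hdet
  have hnorm : ‖(z : ℂ) - (starRingEnd ℂ) ((g • w : ℍ) : ℂ)‖ ^ 2 =
      z.im * w.im * (2 + Nf g z w) / Complex.normSq ((c : ℂ) * w + d) := by
    have hD' : (starRingEnd ℂ) ((c : ℂ) * w + d) ≠ 0 := (map_ne_zero _).mpr hD
    have e : (z : ℂ) - (starRingEnd ℂ) ((g • w : ℍ) : ℂ) =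
        ((z : ℂ) * (starRingEnd ℂ) ((c : ℂ) * w + d) - (starRingEnd ℂ) ((a : ℂ) * w + b)) /
          (starRingEnd ℂ) ((c : ℂ) * w + d) := by
      rw [hco, map_div₀, sub_div, mul_div_assoc, div_self hD', mul_one]
    rw [← Complex.normSq_eq_norm_sq, e, Complex.normSq_div, Complex.normSq_conj]
    congr 1
    rw [Nf, Complex.normSq_apply]
    simp only [Complex.sub_re, Complex.mul_re, Complex.conj_re, Complex.add_re, Complex.conj_im,
      Complex.sub_im, Complex.mul_im, Complex.add_im, Complex.ofReal_re, Complex.ofReal_im]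
    have e1 : w.im = (w : ℂ).im := rfl
    have e2 : z.im = (z : ℂ).im := rfl
    have e3 : w.re = (w : ℂ).re := rfl
    have e4 : z.re = (z : ℂ).re := rfl
    have e5 : z.im * w.im * (2 + (z.im * w.im * c ^ 2 + z.im / w.im * (c * w.re + d) ^ 2 +
        w.im / z.im * (a - z.re * c) ^ 2 +
        1 / (z.im * w.im) * (b + a * w.re - z.re * (c * w.re + d)) ^ 2)) =
        2 * z.im * w.im + (z.im * w.im * c) ^ 2 + (z.im * (c * w.re + d)) ^ 2 +
        (w.im * (a - z.re * c)) ^ 2 + (b + a * w.re - z.re * (c * w.re + d)) ^ 2 := by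
      field_simp
      ring
    rw [e5, ← e1, ← e2, ← e3, ← e4]
    linear_combination 2 * z.im * w.im * hdet
  rw [him, hnorm]
  have h2 : 0 < 2 + Nf g z w := by
    have : 0 ≤ Nf g z w := by rw [Nf]; positivity
    linarith
  field_simp

theorem Nf_nonneg (g : SL(2, ℤ)) (z w : ℍ) : 0 ≤ Nf g z w := by
  have hz := z.im_pos
  have hw := w.im_pos
  rw [Nf]; positivity

theorem entries_bound (z w : ℍ) : ∃ C : ℝ, 0 < C ∧ ∀ g : SL(2, ℤ),
    1 + (g 0 0 : ℝ) ^ 2 ≤ C * (2 + Nf g z w) ∧ 1 + (g 0 1 : ℝ) ^ 2 ≤ C * (2 + Nf g z w) ∧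
    1 + (g 1 0 : ℝ) ^ 2 ≤ C * (2 + Nf g z w) ∧ 1 + (g 1 1 : ℝ) ^ 2 ≤ C * (2 + Nf g z w) := by
  have hz := z.im_pos
  have hw := w.im_pos
  obtain ⟨x, hx⟩ : ∃ x, x = z.re := ⟨_, rfl⟩
  obtain ⟨y, hy⟩ : ∃ y, y = z.im := ⟨_, rfl⟩
  obtain ⟨ξ, hξ⟩ : ∃ ξ, ξ = w.re := ⟨_, rfl⟩
  obtain ⟨η, hη⟩ : ∃ η, η = w.im := ⟨_, rfl⟩
  rw [← hy] at hz
  rw [← hη] at hw
  obtain ⟨Cc, hCc⟩ : ∃ C : ℝ, C = 1 / (y * η) := ⟨_, rfl⟩
  obtain ⟨Cu, hCu⟩ : ∃ C : ℝ, C = η / y := ⟨_, rfl⟩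
  obtain ⟨Cv, hCv⟩ : ∃ C : ℝ, C = y / η := ⟨_, rfl⟩
  obtain ⟨Ct, hCt⟩ : ∃ C : ℝ, C = y * η := ⟨_, rfl⟩
  obtain ⟨Ca, hCa⟩ : ∃ C : ℝ, C = 2 * Cv + 2 * x ^ 2 * Cc := ⟨_, rfl⟩
  obtain ⟨Cd, hCd⟩ : ∃ C : ℝ, C = 2 * Cu + 2 * ξ ^ 2 * Cc := ⟨_, rfl⟩
  obtain ⟨Cb, hCb⟩ : ∃ C : ℝ, C = 3 * Ct + 3 * ξ ^ 2 * Ca + 3 * x ^ 2 * Cu := ⟨_, rfl⟩
  have hCc0 : 0 < Cc := by rw [hCc]; positivity
  have hCu0 : 0 < Cu := by rw [hCu]; positivity
  have hCv0 : 0 < Cv := by rw [hCv]; positivity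
  have hCt0 : 0 < Ct := by rw [hCt]; positivity
  have hCa0 : 0 < Ca := by rw [hCa]; positivity
  have hCd0 : 0 < Cd := by rw [hCd]; positivity
  have hCb0 : 0 < Cb := by rw [hCb]; positivity
  refine ⟨1 + Ca + Cb + Cc + Cd, by positivity, fun g => ?_⟩
  have hN : Nf g z w = y * η * (g 1 0 : ℝ) ^ 2 + y / η * ((g 1 0 : ℝ) * ξ + g 1 1) ^ 2 +
    η / y * ((g 0 0 : ℝ) - x * g 1 0) ^ 2 +
    1 / (y * η) * ((g 0 1 : ℝ) + g 0 0 * ξ - x * ((g 1 0 : ℝ) * ξ + g 1 1)) ^ 2 := by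
    rw [hx, hy, hξ, hη]; rfl
  have hN0 := Nf_nonneg g z w
  generalize Nf g z w = N at hN hN0 ⊢
  generalize ((g 0 0 : ℤ) : ℝ) = a at hN ⊢
  generalize ((g 0 1 : ℤ) : ℝ) = b at hN ⊢
  generalize ((g 1 0 : ℤ) : ℝ) = c at hN ⊢
  generalize ((g 1 1 : ℤ) : ℝ) = d at hN ⊢
  have t1 : 0 ≤ y * η * c ^ 2 := by positivity
  have t2 : 0 ≤ y / η * (c * ξ + d) ^ 2 := by positivity
  have t3 : 0 ≤ η / y * (a - x * c) ^ 2 := by positivity
  have t4 : 0 ≤ 1 / (y * η) * (b + a * ξ - x * (c * ξ + d)) ^ 2 := by positivity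
  have bc : c ^ 2 ≤ Cc * N := by
    have h1 : y * η * c ^ 2 ≤ N := by linarith
    have h2 := mul_le_mul_of_nonneg_left h1 hCc0.le
    have h3 : Cc * (y * η * c ^ 2) = c ^ 2 := by rw [hCc]; field_simp
    linarith
  have bu : (c * ξ + d) ^ 2 ≤ Cu * N := by
    have h1 : y / η * (c * ξ + d) ^ 2 ≤ N := by linarith
    have h2 := mul_le_mul_of_nonneg_left h1 hCu0.le
    have h3 : Cu * (y / η * (c * ξ + d) ^ 2) = (c * ξ + d) ^ 2 := by rw [hCu]; field_simp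
    linarith
  have bv : (a - x * c) ^ 2 ≤ Cv * N := by
    have h1 : η / y * (a - x * c) ^ 2 ≤ N := by linarith
    have h2 := mul_le_mul_of_nonneg_left h1 hCv0.le
    have h3 : Cv * (η / y * (a - x * c) ^ 2) = (a - x * c) ^ 2 := by rw [hCv]; field_simp
    linarith
  have bt : (b + a * ξ - x * (c * ξ + d)) ^ 2 ≤ Ct * N := by
    have h1 : 1 / (y * η) * (b + a * ξ - x * (c * ξ + d)) ^ 2 ≤ N := by linarith
    have h2 := mul_le_mul_of_nonneg_left h1 hCt0.le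
    have h3 : Ct * (1 / (y * η) * (b + a * ξ - x * (c * ξ + d)) ^ 2) =
      (b + a * ξ - x * (c * ξ + d)) ^ 2 := by rw [hCt]; field_simp
    linarith
  have ba : a ^ 2 ≤ Ca * N := by
    have h1 : a ^ 2 ≤ 2 * (a - x * c) ^ 2 + 2 * x ^ 2 * c ^ 2 := by
      nlinarith [sq_nonneg (a - x * c - x * c)]
    have h2 := mul_le_mul_of_nonneg_left bc (by positivity : 0 ≤ 2 * x ^ 2)
    rw [hCa]; linarith
  have bd : d ^ 2 ≤ Cd * N := by
    have h1 : d ^ 2 ≤ 2 * (c * ξ + d) ^ 2 + 2 * ξ ^ 2 * c ^ 2 := by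
      nlinarith [sq_nonneg (c * ξ + d + ξ * c)]
    have h2 := mul_le_mul_of_nonneg_left bc (by positivity : 0 ≤ 2 * ξ ^ 2)
    rw [hCd]; linarith
  have bb : b ^ 2 ≤ Cb * N := by
    have h1 : b ^ 2 ≤ 3 * (b + a * ξ - x * (c * ξ + d)) ^ 2 + 3 * ξ ^ 2 * a ^ 2 +
        3 * x ^ 2 * (c * ξ + d) ^ 2 := by
      have e : b = (b + a * ξ - x * (c * ξ + d)) + (-(a * ξ)) + x * (c * ξ + d) := by ring
      have key : ∀ p q r : ℝ, (p + q + r) ^ 2 ≤ 3 * p ^ 2 + 3 * q ^ 2 + 3 * r ^ 2 := by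
        intro p q r
        nlinarith [sq_nonneg (p - q), sq_nonneg (q - r), sq_nonneg (p - r)]
      have := key (b + a * ξ - x * (c * ξ + d)) (-(a * ξ)) (x * (c * ξ + d))
      rw [← e] at this
      have e2 : (-(a * ξ)) ^ 2 = ξ ^ 2 * a ^ 2 := by ring
      have e3 : (x * (c * ξ + d)) ^ 2 = x ^ 2 * (c * ξ + d) ^ 2 := by ring
      rw [e2, e3] at this
      linarith
    have h2 := mul_le_mul_of_nonneg_left ba (by positivity : 0 ≤ 3 * ξ ^ 2)
    have h3 := mul_le_mul_of_nonneg_left bu (by positivity : 0 ≤ 3 * x ^ 2)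
    rw [hCb]; linarith
  have pa : 0 ≤ Ca * N := by positivity
  have pb : 0 ≤ Cb * N := by positivity
  have pc : 0 ≤ Cc * N := by positivity
  have pd : 0 ≤ Cd * N := by positivity
  refine ⟨?_, ?_, ?_, ?_⟩ <;> linarith

theorem sum_int : Summable fun n : ℤ => 1 / (1 + (n : ℝ) ^ 2) := by
  have h := (Real.summable_one_div_int_pow (p := 2)).mpr (by norm_num)
  refine Summable.of_norm_bounded_eventually h ?_
  have : ∀ᶠ n : ℤ in cofinite, n ≠ 0 := by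
    rw [eventually_cofinite]; simp
  filter_upwards [this] with n hn
  have hn' : 0 < (n : ℝ) ^ 2 := by positivity
  rw [Real.norm_of_nonneg (by positivity)]
  exact one_div_le_one_div_of_le hn' (by linarith)

/-- the entries of an integer matrix -/
def ent (g : SL(2, ℤ)) : (ℤ × ℤ) × (ℤ × ℤ) := ((g 0 0, g 0 1), (g 1 0, g 1 1))

theorem ent_inj : Function.Injective ent := by
  intro g h e
  simp only [ent, Prod.mk.injEq] at e
  obtain ⟨⟨e1, e2⟩, e3, e4⟩ := e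
  ext i j
  fin_cases i <;> fin_cases j <;> simpa using by assumption

/-- the dominating function on `ℤ⁴` -/
noncomputable def dom (q : (ℤ × ℤ) × (ℤ × ℤ)) : ℝ :=
  (1 / (1 + (q.1.1 : ℝ) ^ 2) * (1 / (1 + (q.1.2 : ℝ) ^ 2))) *
    (1 / (1 + (q.2.1 : ℝ) ^ 2) * (1 / (1 + (q.2.2 : ℝ) ^ 2)))

theorem dom_summable : Summable dom := by
  have h1 := sum_int.mul_of_nonneg sum_int (fun n => by positivity) (fun n => by positivity)
  exact h1.mul_of_nonneg h1 (fun n => by positivity) (fun n => by positivity)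

theorem k_anti {s t : ℕ} (h : t ≤ s) (z w : ℍ) : k s z w ≤ k t z w := by
  unfold k
  refine pow_le_pow_of_le_one (by positivity) ?_ h
  have := Real.one_le_cosh (dist z w / 2)
  exact inv_le_one_of_one_le₀ (by nlinarith)

theorem k_summable {s : ℕ} (hs : 4 ≤ s) (z w : ℍ) :
    Summable fun g : SL(2, ℤ) => k s z (g • w) := by
  obtain ⟨C, hC, hb⟩ := entries_bound z w
  have h1 : Summable fun g : SL(2, ℤ) => (4 * C) ^ 4 * dom (ent g) :=
    (dom_summable.comp_injective ent_inj).mul_left _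
  refine Summable.of_nonneg_of_le (fun g => (k_pos _ _ _).le) (fun g => ?_) h1
  refine (k_anti hs z (g • w)).trans ?_
  rw [k_eq]
  obtain ⟨h1, h2, h3, h4⟩ := hb g
  have hN0 := Nf_nonneg g z w
  set N := Nf g z w with hN
  have hN2 : 0 < 2 + N := by linarith
  have e : (4 * C) ^ 4 * dom (ent g) = (4 * C / (1 + (g 0 0 : ℝ) ^ 2)) *
      (4 * C / (1 + (g 0 1 : ℝ) ^ 2)) * ((4 * C / (1 + (g 1 0 : ℝ) ^ 2)) *
      (4 * C / (1 + (g 1 1 : ℝ) ^ 2))) := by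
    rw [dom, ent]; ring
  have key : ∀ t : ℝ, 0 < 1 + t ^ 2 → 1 + t ^ 2 ≤ C * (2 + N) →
      4 / (2 + N) ≤ 4 * C / (1 + t ^ 2) := by
    intro t ht h
    rw [div_le_div_iff₀ hN2 ht]
    linarith
  rw [e]
  have p : 0 ≤ 4 / (2 + N) := by positivity
  have k1 := key _ (by positivity) h1
  have k2 := key _ (by positivity) h2
  have k3 := key _ (by positivity) h3
  have k4 := key _ (by positivity) h4
  have m1 := mul_le_mul k1 k2 p (p.trans k1)
  have m2 := mul_le_mul k3 k4 p (p.trans k3)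
  have m := mul_le_mul m1 m2 (by positivity) ((mul_nonneg p p).trans m1)
  calc (4 / (2 + N)) ^ 4 = 4 / (2 + N) * (4 / (2 + N)) * (4 / (2 + N) * (4 / (2 + N))) := by ring
    _ ≤ _ := m

theorem k_summable' {s : ℕ} (hs : 4 ≤ s) (z w : ℍ) :
    Summable fun g : SL(2, ℤ) => k s z (UpperHalfPlane.J • (g • w)) := by
  simp_rw [k_J]
  exact k_summable hs _ _

theorem kap_eq {s : ℕ} (hs : 4 ≤ s) (z w : ℍ) :
    kap s z w = ∑' g : SL(2, ℤ), k s z (g • w) - ∑' g : SL(2, ℤ), k s z (UpperHalfPlane.J • (g • w)) :=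
  (k_summable hs z w).tsum_sub (k_summable' hs z w)

/-- the automorphic kernel without the sign -/
noncomputable def ka (s : ℕ) (z w : ℍ) : ℝ := ∑' g : SL(2, ℤ), k s z (g • w)

theorem kap_ka {s : ℕ} (hs : 4 ≤ s) (z w : ℍ) :
    kap s z w = ka s z w - ka s (UpperHalfPlane.J • z) w := by
  rw [kap_eq hs]
  simp_rw [k_J]
  rfl

theorem nhds_set (z0 w0 : ℍ) :
    {p : ℍ × ℍ | dist p.1 z0 < 1 ∧ dist p.2 w0 < 1} ∈ 𝓝 (z0, w0) := by
  have h1 : Continuous fun p : ℍ × ℍ => dist p.1 z0 := by fun_prop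
  have h2 : Continuous fun p : ℍ × ℍ => dist p.2 w0 := by fun_prop
  refine IsOpen.mem_nhds ?_ ?_
  · exact (isOpen_lt h1 continuous_const).inter (isOpen_lt h2 continuous_const)
  · simp

theorem cont_sl (g : SL(2, ℤ)) : Continuous fun w : ℍ => g • w := by
  have h : (fun w : ℍ => g • w) =
    fun w : ℍ => (Matrix.SpecialLinearGroup.mapGL ℝ g : GL (Fin 2) ℝ) • w := by
    ext1 w; exact sl_smul g w
  rw [h]
  exact continuous_const_smul _

theorem cont_J : Continuous fun w : ℍ => UpperHalfPlane.J • w := continuous_const_smul _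

theorem k_cont_sl (s : ℕ) (g : SL(2, ℤ)) : Continuous fun p : ℍ × ℍ => k s p.1 (g • p.2) := by
  have h1 : Continuous fun p : ℍ × ℍ => g • p.2 := (cont_sl g).comp continuous_snd
  have h2 : Continuous fun p : ℍ × ℍ => (p.1, g • p.2) := continuous_fst.prodMk h1
  have h3 := (k_cont s).comp h2
  simp only [Function.comp_def] at h3
  exact h3

theorem ka_cont {s : ℕ} (hs : 4 ≤ s) : Continuous fun p : ℍ × ℍ => ka s p.1 p.2 := by
  rw [continuous_iff_continuousAt]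
  rintro ⟨z0, w0⟩
  refine ContinuousOn.continuousAt ?_ (nhds_set z0 w0)
  have h1 : Summable fun g : SL(2, ℤ) => (4 * Real.exp 2) ^ s * k s z0 (g • w0) :=
    (k_summable hs z0 w0).mul_left _
  refine continuousOn_tsum (fun g => (k_cont_sl s g).continuousOn) h1 (fun g p hp => ?_)
  rw [Real.norm_of_nonneg (k_pos _ _ _).le]
  refine (k_compare s p.1 (g • p.2) z0 (g • w0)).trans ?_
  refine mul_le_mul_of_nonneg_right ?_ (k_pos _ _ _).le
  refine pow_le_pow_left₀ (by positivity) ?_ _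
  refine mul_le_mul_of_nonneg_left ?_ (by norm_num)
  refine Real.exp_le_exp.mpr ?_
  have : dist (g • p.2) (g • w0) = dist p.2 w0 := by
    rw [sl_smul, sl_smul, dist_smul_GL]
  rw [this]
  linarith [hp.1, hp.2]

theorem kap_cont {s : ℕ} (hs : 6 ≤ s) : Continuous fun p : ℍ × ℍ => kap s p.1 p.2 := by
  have h4 : 4 ≤ s := by omega
  have h : (fun p : ℍ × ℍ => kap s p.1 p.2) =
      fun p : ℍ × ℍ => ka s p.1 p.2 - ka s (UpperHalfPlane.J • p.1) p.2 := by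
    ext1 p
    exact kap_ka h4 _ _
  rw [h]
  have h1 : Continuous fun p : ℍ × ℍ => UpperHalfPlane.J • p.1 := cont_J.comp continuous_fst
  have h2 : Continuous fun p : ℍ × ℍ => (UpperHalfPlane.J • p.1, p.2) := h1.prodMk continuous_snd
  have h3 := (ka_cont h4).comp h2
  simp only [Function.comp_def] at h3
  exact (ka_cont h4).sub h3

theorem ka_symm (s : ℕ) (z w : ℍ) : ka s z w = ka s w z := by
  unfold ka
  rw [← (Equiv.inv SL(2, ℤ)).tsum_eq]
  refine tsum_congr fun g => ?_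
  rw [Equiv.inv_apply, k_symm, ← k_sl s g, smul_inv_smul]

theorem ka_inv (s : ℕ) (g : SL(2, ℤ)) (z w : ℍ) : ka s (g • z) w = ka s z w := by
  unfold ka
  rw [← (Equiv.mulLeft g).tsum_eq]
  refine tsum_congr fun h => ?_
  rw [Equiv.coe_mulLeft, mul_smul, k_sl]

theorem ka_inv' (s : ℕ) (g : SL(2, ℤ)) (z w : ℍ) : ka s z (g • w) = ka s z w := by
  rw [ka_symm, ka_inv, ka_symm]

theorem ka_J (s : ℕ) (z w : ℍ) :
    ka s (UpperHalfPlane.J • z) w = ka s z (UpperHalfPlane.J • w) := by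
  unfold ka
  rw [← twE.tsum_eq]
  refine tsum_congr fun h => ?_
  rw [← k_J]
  congr 1
  change UpperHalfPlane.J • (tw h • w) = _
  rw [J_sl, tw_tw]

theorem kap_symm {s : ℕ} (hs : 6 ≤ s) (z w : ℍ) : kap s z w = kap s w z := by
  have h4 : 4 ≤ s := by omega
  rw [kap_ka h4, kap_ka h4, ka_symm s z w, ka_symm s _ w, ka_J]

theorem kap_inv {s : ℕ} (hs : 6 ≤ s) (g : SL(2, ℤ)) (z w : ℍ) : kap s (g • z) w = kap s z w := by
  have h4 : 4 ≤ s := by omega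
  rw [kap_ka h4, kap_ka h4, J_sl, ka_inv, ka_inv]

theorem kap_odd {s : ℕ} (hs : 6 ≤ s) (z w : ℍ) :
    kap s (UpperHalfPlane.J • z) w = - kap s z w := by
  have h4 : 4 ≤ s := by omega
  rw [kap_ka h4, kap_ka h4, J_J]
  ring

end Run7.h355.OM
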