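import Pool.Agent.Run7.h355.OM.K3a

/-!
# Project OM, piece K3b: the automorphic kernel for odd functions is bounded on a Siegel domain
-/

set_option autoImplicit false

open UpperHalfPlane MeasureTheory Complex Filter Topology
open scoped MatrixGroups

namespace Run7.h355.OM

open Run7.h992.OM

theorem J_re (z : ℍ) : (UpperHalfPlane.J • z).re = -z.re := by
  have h := congrArg Complex.re (UpperHalfPlane.coe_J_smul z)
  simpa using h

theorem J_im (z : ℍ) : (UpperHalfPlane.J • z).im = z.im := by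
  have h := congrArg Complex.im (UpperHalfPlane.coe_J_smul z)
  simpa using h

theorem J_Sg {z : ℍ} (hz : z ∈ Sg) : UpperHalfPlane.J • z ∈ Sg := by
  obtain ⟨h1, h2⟩ := hz
  refine ⟨?_, ?_⟩
  · rw [J_re, abs_neg]; exact h1
  · rw [J_im]; exact h2

/-! ### terms with `c = 0` -/

/-- the one-variable profile of the kernel on horizontal translates -/
noncomputable def fk (s : ℕ) (y η t : ℝ) : ℝ := (4 * y * η / ((y + η) ^ 2 + t ^ 2)) ^ s

theorem fk_nonneg (s : ℕ) {y η : ℝ} (hy : 0 < y) (hη : 0 < η) (t : ℝ) : 0 ≤ fk s y η t := by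
  rw [fk]; positivity

theorem fk_le_one (s : ℕ) {y η : ℝ} (hy : 0 < y) (hη : 0 < η) (t : ℝ) : fk s y η t ≤ 1 := by
  rw [fk]
  refine pow_le_one₀ (by positivity) ?_
  rw [div_le_one (by positivity)]
  nlinarith [sq_nonneg (y - η), sq_nonneg t]

theorem fk_anti (s : ℕ) {y η : ℝ} (hy : 0 < y) (hη : 0 < η) {t u : ℝ} (h : |t| ≤ |u|) :
    fk s y η u ≤ fk s y η t := by
  rw [fk, fk]
  refine pow_le_pow_left₀ (by positivity) ?_ s
  refine div_le_div_of_nonneg_left (by positivity) (by positivity) ?_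
  have := sq_le_sq.mpr h
  linarith

theorem det_c0 {g : SL(2, ℤ)} (hc : g 1 0 = 0) :
    (g 0 0 = 1 ∧ g 1 1 = 1) ∨ (g 0 0 = -1 ∧ g 1 1 = -1) := by
  have h := g.det_coe
  rw [Matrix.det_fin_two] at h
  rw [hc, mul_zero, sub_zero] at h
  exact Int.mul_eq_one_iff_eq_one_or_neg_one.mp h

theorem k_c0 (s : ℕ) (z w : ℍ) {g : SL(2, ℤ)} (hc : g 1 0 = 0) :
    k s z (g • w) = fk s z.im w.im ((g 0 1 : ℝ) + g 0 0 * w.re - g 0 0 * z.re) := by
  have hz := z.im_pos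
  have hw := w.im_pos
  rw [k_eq, fk, Nf, hc]
  congr 1
  rcases det_c0 hc with ⟨h1, h2⟩ | ⟨h1, h2⟩
  · rw [h1, h2]
    push_cast
    field_simp
    ring
  · rw [h1, h2]
    push_cast
    field_simp
    ring

/-- the bound for the terms with `c = 0`, `|b| = m` -/
noncomputable def Hf (s : ℕ) (y η : ℝ) : ℕ → ℝ
  | 0 => 1
  | (m + 1) => fk s y η m - fk s y η (m + 2)

theorem Hf_nonneg (s : ℕ) {y η : ℝ} (hy : 0 < y) (hη : 0 < η) (m : ℕ) : 0 ≤ Hf s y η m := by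
  cases m with
  | zero => exact zero_le_one
  | succ m =>
    change 0 ≤ fk s y η m - fk s y η (m + 2)
    have : fk s y η (m + 2) ≤ fk s y η m := by
      refine fk_anti s hy hη ?_
      rw [abs_of_nonneg (by positivity), abs_of_nonneg (by positivity)]
      linarith
    linarith

theorem Hf_sum (s : ℕ) {y η : ℝ} (hy : 0 < y) (hη : 0 < η) (N : ℕ) :
    ∑ m ∈ Finset.range (N + 1), Hf s y η m ≤ 3 := by
  have h : ∑ m ∈ Finset.range (N + 1), Hf s y η m =
      1 + fk s y η 0 + fk s y η 1 - fk s y η N - fk s y η (N + 1) := by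
    induction N with
    | zero => simp [Hf]; ring
    | succ N ih =>
      rw [Finset.sum_range_succ, ih]
      change _ + (fk s y η N - fk s y η (N + 2)) = _
      have : ((N + 1 : ℕ) : ℝ) + 1 = (N : ℝ) + 2 := by push_cast; ring
      rw [this]
      push_cast
      ring
  rw [h]
  have := fk_le_one s hy hη 0
  have := fk_le_one s hy hη 1
  have := fk_nonneg s hy hη N
  have := fk_nonneg s hy hη (N + 1)
  linarith

theorem fk_diff (s : ℕ) {y η : ℝ} (hy : 0 < y) (hη : 0 < η) (b : ℤ) {e f : ℝ} (he : |e| ≤ 1)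
    (hf : |f| ≤ 1) : |fk s y η (b + e) - fk s y η (b + f)| ≤ Hf s y η b.natAbs := by
  have hb : |(b : ℝ)| = (b.natAbs : ℝ) := by
    rw [Nat.cast_natAbs, Int.cast_abs]
  rcases hm : b.natAbs with _ | m
  · change _ ≤ (1 : ℝ)
    have h1 := fk_le_one s hy hη (b + e)
    have h2 := fk_le_one s hy hη (b + f)
    have h3 := fk_nonneg s hy hη (b + e)
    have h4 := fk_nonneg s hy hη (b + f)
    rw [abs_le]
    constructor <;> linarith
  · change _ ≤ fk s y η m - fk s y η (m + 2)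
    rw [hm] at hb
    push_cast at hb
    have key : ∀ e : ℝ, |e| ≤ 1 → fk s y η (m + 2) ≤ fk s y η (b + e) ∧
        fk s y η (b + e) ≤ fk s y η m := by
      intro e he
      have hm0 : (0 : ℝ) ≤ m := by positivity
      constructor
      · refine fk_anti s hy hη ?_
        rw [abs_of_nonneg (by positivity : (0 : ℝ) ≤ m + 2)]
        have := abs_add_le (b : ℝ) e
        linarith
      · refine fk_anti s hy hη ?_
        rw [abs_of_nonneg hm0]
        have := abs_sub_abs_le_abs_sub (b : ℝ) (-e)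
        rw [abs_neg, sub_neg_eq_add] at this
        linarith
    obtain ⟨h1, h2⟩ := key e he
    obtain ⟨h3, h4⟩ := key f hf
    rw [abs_le]
    constructor <;> linarith

/-- the terms of the series -/
noncomputable def tm (s : ℕ) (z w : ℍ) (g : SL(2, ℤ)) : ℝ :=
  k s z (g • w) - k s z (UpperHalfPlane.J • (g • w))

theorem tm_c0 (s : ℕ) {z w : ℍ} (hz : z ∈ Sg) (hw : w ∈ Sg) {g : SL(2, ℤ)} (hc : g 1 0 = 0) :
    |tm s z w g| ≤ Hf s z.im w.im (g 0 1).natAbs := by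
  rw [tm, k_J, k_c0 s z w hc, k_c0 s _ w hc, J_re, J_im]
  have hx := hz.1
  have hξ := hw.1
  have e1 : (g 0 1 : ℝ) + g 0 0 * w.re - g 0 0 * z.re =
    (g 0 1 : ℝ) + (g 0 0 * w.re - g 0 0 * z.re) := by ring
  have e2 : (g 0 1 : ℝ) + g 0 0 * w.re - g 0 0 * -z.re =
    (g 0 1 : ℝ) + (g 0 0 * w.re + g 0 0 * z.re) := by ring
  rw [e1, e2]
  rw [abs_le] at hx hξ
  refine fk_diff s z.im_pos w.im_pos _ ?_ ?_
  · rcases det_c0 hc with ⟨h1, -⟩ | ⟨h1, -⟩ <;> rw [h1, abs_le] <;> push_cast <;>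
      constructor <;> linarith
  · rcases det_c0 hc with ⟨h1, -⟩ | ⟨h1, -⟩ <;> rw [h1, abs_le] <;> push_cast <;>
      constructor <;> linarith

/-- signs of `a` and `b`, and the modulus of `b` -/
def ph (g : SL(2, ℤ)) : (Bool × Bool) × ℕ :=
  ((decide (0 < g 0 0), decide (0 ≤ g 0 1)), (g 0 1).natAbs)

theorem ph_inj {g h : SL(2, ℤ)} (hg : g 1 0 = 0) (hh : h 1 0 = 0) (e : ph g = ph h) : g = h := by
  simp only [ph, Prod.mk.injEq, decide_eq_decide] at e
  obtain ⟨⟨e1, e2⟩, e3⟩ := e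
  have hb : g 0 1 = h 0 1 := by omega
  ext i j
  rcases det_c0 hg with ⟨h1, h2⟩ | ⟨h1, h2⟩ <;> rcases det_c0 hh with ⟨h3, h4⟩ | ⟨h3, h4⟩ <;>
    fin_cases i <;> fin_cases j <;> simp_all

theorem sum_c0 (s : ℕ) {z w : ℍ} (hz : z ∈ Sg) (hw : w ∈ Sg) (F : Finset SL(2, ℤ))
    (hF : ∀ g ∈ F, g 1 0 = 0) : ∑ g ∈ F, |tm s z w g| ≤ 12 := by
  have h1 : ∑ g ∈ F, |tm s z w g| ≤ ∑ g ∈ F, Hf s z.im w.im (ph g).2 :=
    Finset.sum_le_sum fun g hg => tm_c0 s hz hw (hF g hg)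
  refine h1.trans ?_
  have h2 : ∑ g ∈ F, Hf s z.im w.im (ph g).2 = ∑ q ∈ F.image ph, Hf s z.im w.im q.2 := by
    rw [Finset.sum_image]
    intro g hg h hh e
    exact ph_inj (hF g hg) (hF h hh) e
  rw [h2]
  obtain ⟨N, hN⟩ : ∃ N, N = F.sup fun g => (ph g).2 := ⟨_, rfl⟩
  have h3 : F.image ph ⊆ (Finset.univ : Finset (Bool × Bool)) ×ˢ Finset.range (N + 1) := by
    intro q hq
    rw [Finset.mem_image] at hq
    obtain ⟨g, hg, rfl⟩ := hq
    rw [Finset.mem_product, Finset.mem_range]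
    refine ⟨Finset.mem_univ _, ?_⟩
    have : (ph g).2 ≤ N := by rw [hN]; exact Finset.le_sup (f := fun g => (ph g).2) hg
    omega
  refine (Finset.sum_le_sum_of_subset_of_nonneg h3 fun q _ _ =>
    Hf_nonneg s z.im_pos w.im_pos _).trans ?_
  rw [Finset.sum_product]
  have h4 := Hf_sum s z.im_pos w.im_pos N
  have h5 : ∑ x : Bool × Bool, ∑ y ∈ Finset.range (N + 1), Hf s z.im w.im (x, y).2 =
    4 * ∑ y ∈ Finset.range (N + 1), Hf s z.im w.im y := by
    simp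
  rw [h5]
  linarith

/-! ### terms with `c ≠ 0` -/

theorem Nf_lower {z w : ℍ} (hz : z ∈ Sg) (hw : w ∈ Sg) {g : SL(2, ℤ)} (hc : g 1 0 ≠ 0) :
    (g 1 0 : ℝ) ^ 2 ≤ 4 * Nf g z w ∧ |(g 0 0 : ℝ)| ≤ 3 * Nf g z w ∧
      |(g 1 1 : ℝ)| ≤ 3 * Nf g z w := by
  obtain ⟨hx, hy⟩ := hz
  obtain ⟨hξ, hη⟩ := hw
  have hN : Nf g z w = z.im * w.im * (g 1 0 : ℝ) ^ 2 +
    z.im / w.im * ((g 1 0 : ℝ) * w.re + g 1 1) ^ 2 +
    w.im / z.im * ((g 0 0 : ℝ) - z.re * g 1 0) ^ 2 +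
    1 / (z.im * w.im) * ((g 0 1 : ℝ) + g 0 0 * w.re - z.re * ((g 1 0 : ℝ) * w.re + g 1 1)) ^ 2 :=
    rfl
  have hc1 : (1 : ℝ) ≤ |(g 1 0 : ℝ)| := by
    rw [← Int.cast_abs]
    exact_mod_cast Int.one_le_abs hc
  generalize Nf g z w = N at hN ⊢
  generalize z.re = x at hN hx
  generalize z.im = y at hN hy
  generalize w.re = ξ at hN hξ
  generalize w.im = η at hN hη
  generalize ((g 0 0 : ℤ) : ℝ) = a at hN ⊢
  generalize ((g 0 1 : ℤ) : ℝ) = b at hN ⊢
  generalize ((g 1 0 : ℤ) : ℝ) = c at hN hc1 ⊢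
  generalize ((g 1 1 : ℤ) : ℝ) = d at hN ⊢
  have hy0 : 0 < y := by linarith
  have hη0 : 0 < η := by linarith
  have t1 : 0 ≤ y * η * c ^ 2 := by positivity
  have t2 : 0 ≤ y / η * (c * ξ + d) ^ 2 := by positivity
  have t3 : 0 ≤ η / y * (a - x * c) ^ 2 := by positivity
  have t4 : 0 ≤ 1 / (y * η) * (b + a * ξ - x * (c * ξ + d)) ^ 2 := by positivity
  have hyη : 1 / 4 ≤ y * η := by nlinarith
  have hc2 : c ^ 2 ≤ 4 * (y * η * c ^ 2) := by nlinarith [sq_nonneg c]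
  have hcN : c ^ 2 ≤ 4 * N := by linarith
  have hcc : |c| ≤ c ^ 2 := by
    rw [← sq_abs c]
    nlinarith
  -- AM-GM
  have am1 : |c * ξ + d| ≤ y * η * c ^ 2 + y / η * (c * ξ + d) ^ 2 := by
    have h1 : y * η * c ^ 2 + y / η * (c * ξ + d) ^ 2 - 2 * y * (|c| * |c * ξ + d|) =
        y / η * (η * |c| - |c * ξ + d|) ^ 2 := by
      rw [sub_sq (η * |c|) |c * ξ + d|, sq_abs (c * ξ + d), mul_pow, sq_abs c]
      field_simp
      ring
    have h2 : 0 ≤ y / η * (η * |c| - |c * ξ + d|) ^ 2 := by positivity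
    have h3 : |c * ξ + d| ≤ 2 * y * (|c| * |c * ξ + d|) := by
      have h4 : 1 ≤ 2 * y := by linarith
      have h5 : |c * ξ + d| ≤ |c| * |c * ξ + d| := le_mul_of_one_le_left (abs_nonneg _) hc1
      have h6 : |c| * |c * ξ + d| ≤ 2 * y * (|c| * |c * ξ + d|) :=
        le_mul_of_one_le_left (by positivity) h4
      linarith
    linarith
  have am2 : |a - x * c| ≤ y * η * c ^ 2 + η / y * (a - x * c) ^ 2 := by
    have h1 : y * η * c ^ 2 + η / y * (a - x * c) ^ 2 - 2 * η * (|c| * |a - x * c|) =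
        η / y * (y * |c| - |a - x * c|) ^ 2 := by
      rw [sub_sq (y * |c|) |a - x * c|, sq_abs (a - x * c), mul_pow, sq_abs c]
      field_simp
      ring
    have h2 : 0 ≤ η / y * (y * |c| - |a - x * c|) ^ 2 := by positivity
    have h3 : |a - x * c| ≤ 2 * η * (|c| * |a - x * c|) := by
      have h4 : 1 ≤ 2 * η := by linarith
      have h5 : |a - x * c| ≤ |c| * |a - x * c| := le_mul_of_one_le_left (abs_nonneg _) hc1
      have h6 : |c| * |a - x * c| ≤ 2 * η * (|c| * |a - x * c|) :=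
        le_mul_of_one_le_left (by positivity) h4
      linarith
    linarith
  refine ⟨hcN, ?_, ?_⟩
  · have h1 : |a| ≤ |a - x * c| + |x * c| := by
      have := abs_add_le (a - x * c) (x * c)
      rwa [sub_add_cancel] at this
    have h2 : |x * c| ≤ 1 / 2 * |c| := by
      rw [abs_mul]; exact mul_le_mul_of_nonneg_right hx (abs_nonneg _)
    linarith
  · have h1 : |d| ≤ |c * ξ + d| + |c * ξ| := by
      have := abs_sub (c * ξ + d) (c * ξ)
      rwa [add_sub_cancel_left] at this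
    have h2 : |c * ξ| ≤ 1 / 2 * |c| := by
      rw [abs_mul, mul_comm]; exact mul_le_mul_of_nonneg_right hξ (abs_nonneg _)
    linarith

/-- the entries except `b` -/
def en3 (g : SL(2, ℤ)) : (ℤ × ℤ) × ℤ := ((g 0 0, g 1 0), g 1 1)

theorem en3_inj {g h : SL(2, ℤ)} (hg : g 1 0 ≠ 0) (e : en3 g = en3 h) : g = h := by
  simp only [en3, Prod.mk.injEq] at e
  obtain ⟨⟨e1, e2⟩, e3⟩ := e
  have dg := g.det_coe
  have dh := h.det_coe
  rw [Matrix.det_fin_two] at dg dh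
  have hb : g 0 1 = h 0 1 := by
    rw [← e1, ← e2, ← e3] at dh
    have : g 0 1 * g 1 0 = h 0 1 * g 1 0 := by linarith
    exact mul_right_cancel₀ hg this
  ext i j
  fin_cases i <;> fin_cases j <;> simpa using by assumption

/-- the dominating function for `c ≠ 0` -/
noncomputable def dom3 (q : (ℤ × ℤ) × ℤ) : ℝ :=
  (1 / (1 + (q.1.1 : ℝ) ^ 2) * (1 / (1 + (q.1.2 : ℝ) ^ 2))) * (1 / (1 + (q.2 : ℝ) ^ 2))

theorem dom3_nonneg (q : (ℤ × ℤ) × ℤ) : 0 ≤ dom3 q := by rw [dom3]; positivity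

theorem dom3_summable : Summable dom3 := by
  have h1 := sum_int.mul_of_nonneg sum_int (fun n => by positivity) (fun n => by positivity)
  exact h1.mul_of_nonneg sum_int (fun n => by positivity) (fun n => by positivity)

theorem k_c1 {s : ℕ} (hs : 6 ≤ s) {z w : ℍ} (hz : z ∈ Sg) (hw : w ∈ Sg) {g : SL(2, ℤ)}
    (hc : g 1 0 ≠ 0) : k s z (g • w) ≤ 160 ^ 3 * dom3 (en3 g) := by
  refine (k_anti hs z (g • w)).trans ?_
  rw [k_eq]
  obtain ⟨h1, h2, h3⟩ := Nf_lower hz hw hc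
  have hN0 := Nf_nonneg g z w
  have e : (160 : ℝ) ^ 3 * dom3 (en3 g) = 160 / (1 + (g 0 0 : ℝ) ^ 2) *
      (160 / (1 + (g 1 0 : ℝ) ^ 2)) * (160 / (1 + (g 1 1 : ℝ) ^ 2)) := by
    rw [dom3, en3]; ring
  rw [e]
  generalize Nf g z w = N at *
  have hN2 : 0 < 2 + N := by linarith
  have key : ∀ t : ℝ, |t| ≤ 3 * N → (4 / (2 + N)) ^ 2 ≤ 160 / (1 + t ^ 2) := by
    intro t ht
    rw [div_pow, div_le_div_iff₀ (by positivity) (by positivity)]
    have h := sq_le_sq' (by linarith [neg_abs_le t, abs_nonneg t]) ((le_abs_self t).trans ht)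
    nlinarith
  have keyc : (4 / (2 + N)) ^ 2 ≤ 160 / (1 + (g 1 0 : ℝ) ^ 2) := by
    rw [div_pow, div_le_div_iff₀ (by positivity) (by positivity)]
    nlinarith
  have p : 0 ≤ (4 / (2 + N)) ^ 2 := by positivity
  have m1 := mul_le_mul (key _ h2) keyc p (p.trans (key _ h2))
  have m2 := mul_le_mul m1 (key _ h3) p (by positivity)
  calc (4 / (2 + N)) ^ 6 = (4 / (2 + N)) ^ 2 * (4 / (2 + N)) ^ 2 * (4 / (2 + N)) ^ 2 := by ring
    _ ≤ _ := m2

theorem sum_c1 {s : ℕ} (hs : 6 ≤ s) {z w : ℍ} (hz : z ∈ Sg) (hw : w ∈ Sg) (F : Finset SL(2, ℤ))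
    (hF : ∀ g ∈ F, g 1 0 ≠ 0) : ∑ g ∈ F, |tm s z w g| ≤ 2 * (160 ^ 3 * ∑' q, dom3 q) := by
  have h1 : ∑ g ∈ F, |tm s z w g| ≤ ∑ g ∈ F, 2 * (160 ^ 3 * dom3 (en3 g)) := by
    refine Finset.sum_le_sum fun g hg => ?_
    have a1 := k_c1 hs hz hw (hF g hg)
    have a2 := k_c1 hs (J_Sg hz) hw (hF g hg)
    rw [← k_J] at a2
    have a3 := (k_pos s z (g • w)).le
    have a4 := (k_pos s z (UpperHalfPlane.J • (g • w))).le
    rw [tm, abs_le]
    constructor <;> linarith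
  refine h1.trans ?_
  rw [← Finset.mul_sum, ← Finset.mul_sum]
  refine mul_le_mul_of_nonneg_left (mul_le_mul_of_nonneg_left ?_ (by norm_num)) (by norm_num)
  have h2 : ∑ g ∈ F, dom3 (en3 g) = ∑ q ∈ F.image en3, dom3 q := by
    rw [Finset.sum_image]
    intro g hg h hh e
    exact en3_inj (hF g hg) e
  rw [h2]
  exact dom3_summable.sum_le_tsum _ fun q _ => dom3_nonneg q

theorem kap_bdd {s : ℕ} (hs : 6 ≤ s) : ∃ C : ℝ, ∀ z ∈ Sg, ∀ w ∈ Sg, |kap s z w| ≤ C := by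
  refine ⟨12 + 2 * (160 ^ 3 * ∑' q, dom3 q), fun z hz w hw => ?_⟩
  have h4 : 4 ≤ s := by omega
  have hsm : Summable fun g => |tm s z w g| := ((k_summable h4 z w).sub (k_summable' h4 z w)).abs
  have h1 : |kap s z w| ≤ ∑' g, |tm s z w g| := by
    have := norm_tsum_le_tsum_norm (f := fun g => tm s z w g) (by simpa using hsm)
    simpa [kap, tm] using this
  refine h1.trans (hsm.tsum_le_of_sum_le fun F => ?_)
  classical
  rw [← Finset.sum_filter_add_sum_filter_not F (fun g => g 1 0 = 0)]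
  refine add_le_add (sum_c0 s hz hw _ fun g hg => ?_) (sum_c1 hs hz hw _ fun g hg => ?_)
  · exact (Finset.mem_filter.mp hg).2
  · exact (Finset.mem_filter.mp hg).2

end Run7.h355.OM
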